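import Pool.Agent.N410.DC.Chain
import Pool.Agent.R545.PC.Main
import Pool.Agent.R890.FF.BF

/-!
# Flows with allowed values for graphs with large odd cuts
-/

set_option autoImplicit false
set_option linter.unusedSectionVars false
set_option synthInstance.maxHeartbeats 400000
set_option synthInstance.maxSize 2048

namespace Pool.Agent.N410.DC

open Finset Pool.Agent.TH362.TF Pool.Agent.R890.FF
open Pool.Agent.TH676.A (Alg FlowOn)
open Pool.Agent.TH497.BF (G Ag inA algAg)

variable {V E : Type} [Fintype V] [DecidableEq V] [Fintype E] [DecidableEq E]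
variable {Γ : Type} [AddCommGroup Γ] {A : Γ → Prop}

/-- flows with allowed values -/
theorem alg_cl (hA : Alg A) {val : Fin 10 → Fin 10 → Γ} (hv : Pet A val)
    (h4 : ∃ σ : F →+ Γ, ∀ x, x ≠ 0 → A (σ x)) (s t : E → V) (hN : N1 s t univ) (h : Cl s t) :
    FlowOn A s t ∅ ∅ :=
  alg_class hA hv h4 (Cl := fun s t : E → V => Cl s t) (fun s t π h => h.map π)
    (fun s t h h' => h.flow h') _ s t rfl h hN

/-- six even subgraphs -/
theorem bf_cl (s t : E → V) (hB : Pool.Agent.TH676.A.Br s t ∅ ∅) (h : Cl s t) :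
    FlowOn Ag s t ∅ ∅ :=
  alg_cl algAg petBF ⟨embBF, Pool.Agent.R890.FF.emb_A⟩ s t (n1_of_br hB) h

open Pool.Agent.H160R2.CC Pool.Agent.H160R2.CC.MGraph

/-- **maps to the Petersen graph** -/
theorem succ_cl (K : MGraph) (hB : ¬ K.HasCutEdge) (h : Cl K.src K.tgt) : Succ K petersen :=
  Pool.Agent.R545.PC.succ_of_flow K (alg_cl Pool.Agent.R545.PC.algPC Pool.Agent.R545.PC.petPC
    ⟨Pool.Agent.R545.PC.emb, Pool.Agent.R545.PC.emb_A⟩ K.src K.tgt
    (Pool.Agent.R545.PC.n1_of_cut K hB) h)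

end Pool.Agent.N410.DC
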