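import Pool.Agent.N410.DC.Dense
import Pool.Agent.Y335.FL.CircEx
import Pool.Agent.R926.SC.PetMix

/-!
# Chains of short ears and doubly connected pieces, and eighteen disjoint odd cuts
-/

set_option autoImplicit false
set_option linter.unusedSectionVars false
set_option synthInstance.maxHeartbeats 400000
set_option synthInstance.maxSize 2048

namespace Pool.Agent.N410.DC

open Finset Pool.Agent.TH362.TF Pool.Agent.R890.FF Pool.Agent.TH676.Z Pool.Agent.R926.SC

variable {V E : Type} [Fintype V] [DecidableEq V] [Fintype E] [DecidableEq E]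

/-- any 18 disjoint sets with odd boundaries without edges of `F` have at least 67 boundary edges -/
def OddOff (s t : E → V) (F : Finset E) : Prop :=
  ∀ X : Fin 18 → Finset V, (∀ i j, i ≠ j → Disjoint (X i) (X j)) →
    (∀ i, Disjoint (crs s t (X i)) F) → (∀ i, Odd (crs s t (X i)).card) →
    67 ≤ ∑ i, (crs s t (X i)).card

/-- chain of contractible pieces -/
def Chain (s t : E → V) {m : ℕ} (C : Fin m → Finset E) : Prop :=
  ∀ i, St s t ((univ.filter (fun j => j < i)).biUnion C)
    (C i \ (univ.filter (fun j => j < i)).biUnion C)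

/-- the class of the graphs -/
def Cl (s t : E → V) : Prop :=
  ∃ (m : ℕ) (C : Fin m → Finset E), Chain s t C ∧ OddOff s t (univ.biUnion C)

theorem cut_eq_crs (s t : E → V) (X : Finset V) :
    cut s t univ (fun v => decide (v ∈ X)) = crs s t X := by
  ext e
  rw [mem_crs]
  unfold cut
  rw [mem_filter]
  by_cases h1 : s e ∈ X <;> by_cases h2 : t e ∈ X <;> simp [h1, h2]

theorem oddOff_map {s t : E → V} {F : Finset E} (h : OddOff s t F) (ρ : V → V) :
    OddOff (ρ ∘ s) (ρ ∘ t) F := by
  intro X hX hF ho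
  simp only [crs_comp] at hF ho ⊢
  refine h _ (fun i j hij => ?_) hF ho
  rw [disjoint_left]
  intro v hv hv'
  exact (disjoint_left.1 (hX i j hij)) (mem_filter.1 hv).2 (mem_filter.1 hv').2

/-- the class is closed under the identification of vertices -/
theorem Cl.map {s t : E → V} (h : Cl s t) (ρ : V → V) :
    Cl (fun e => ρ (s e)) (fun e => ρ (t e)) := by
  obtain ⟨m, C, h1, h2⟩ := h
  exact ⟨m, C, fun i => st_map s t ρ _ _ (h1 i), oddOff_map h2 ρ⟩

/-- **graphs in the class have a nowhere-zero 4-flow or a Petersen quotient** -/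
theorem Cl.flow {s t : E → V} (h : Cl s t) (h1 : N1 s t univ) : NZ s t univ ∨ PQ s t univ := by
  obtain ⟨m, C, hC, hO⟩ := h
  set F := univ.biUnion C with hF
  obtain ⟨r, q1, -, -, q4⟩ := quotC s t F
  have hN : N1 (fun e => r (s e)) (fun e => r (t e)) univ :=
    quot_n1 (S' := univ) (Subset.refl _) (fun e h h' => absurd h h') h1
  have hOC : OddCuts (fun e => r (s e)) (fun e => r (t e)) := by
    intro X hX ho
    have h3 := oddOff_map hO r X hX (fun i => ?_) (fun i => ?_)
    · refine h3.trans_eq (sum_congr rfl fun i _ => ?_)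
      rw [cut_eq_crs]
      rfl
    · rw [disjoint_left]
      intro e he heF
      rw [mem_crs] at he
      apply he
      simp only [Function.comp, q1 e heF]
    · have h4 := ho i
      rw [cut_eq_crs] at h4
      exact h4
  rcases flow_or_petersen _ _ hN hOC with h3 | h3
  · left
    have h4 : FlA s t F := flA_of_nz s t F r q4 h3
    obtain ⟨x, y, b1, b2, b3⟩ := foldM Pool.Agent.Y335.FL.circEx s t m C hC h4
    refine ⟨fun e => (x e, y e), fun e _ => ?_, fun v => cons_of s t x y v (b1 v) (b2 v)⟩
    intro h7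
    rcases b3 e (notMem_empty e) with h8 | h8
    · exact h8 (congrArg Prod.fst h7)
    · exact h8 (congrArg Prod.snd h7)
  · right
    exact quot_pq (s := s) (t := t) (f := r) (S := univ) (S' := univ) (Subset.refl _)
      (fun e h h' => absurd h h') h3

/-- the plain condition -/
theorem Cl.of_oddCuts {s t : E → V} (h : OddCuts s t) : Cl s t := by
  refine ⟨0, fun i => i.elim0, fun i => i.elim0, fun X hX _ ho => ?_⟩
  have h1 := h X hX (fun i => by rw [cut_eq_crs]; exact ho i)
  simp only [cut_eq_crs] at h1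
  exact h1

/-- dense graphs are in the class -/
theorem Cl.of_nbrs {s t : E → V} (h1 : N1 s t univ) {k : ℕ} (h : Nbrs s t k)
    (hk : (16 ≤ k ∧ Fintype.card V < 18 * (k + 1)) ∨ (10 ≤ k ∧ Fintype.card V < 17 * (k + 1)) ∨
      (4 ≤ k ∧ Fintype.card V < 12 * (k + 1))) : Cl s t :=
  Cl.of_oddCuts (oddCuts_of_nbrs h1 h hk)

/-- with the steps in the form of the results -/
theorem Cl.of_steps {s t : E → V} {m : ℕ} {C : Fin m → Finset E}
    (h : ∀ i, (((C i \ (univ.filter (fun j => j < i)).biUnion C).card ≤ 4 ∧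
        ∀ Y : Finset V, Disjoint (crs s t Y) ((univ.filter (fun j => j < i)).biUnion C) →
          (crs s t Y ∩ C i).card ≠ 1) ∨
      ∃ T₁ T₂ : Finset E, T₁ ⊆ C i ∧ T₂ ⊆ C i ∧ Disjoint T₁ T₂ ∧
        ∀ Y : Finset V, Disjoint (crs s t Y) ((univ.filter (fun j => j < i)).biUnion C) →
          ¬ Disjoint (crs s t Y) (C i) →
            ¬ Disjoint (crs s t Y) T₁ ∧ ¬ Disjoint (crs s t Y) T₂))
    (hO : OddOff s t (univ.biUnion C)) : Cl s t :=
  ⟨m, C, st_of s t m C h, hO⟩

end Pool.Agent.N410.DC
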