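import Pool.Agent.N410.DC.Sparse

/-!
# Eighteen disjoint odd cuts

If any 18 disjoint sets of vertices with odd boundaries have at least 67 boundary edges in total, then
a bridgeless graph has a nowhere-zero flow over the group of order four or a Petersen quotient.
-/

set_option autoImplicit false
set_option linter.unusedSectionVars false
set_option synthInstance.maxHeartbeats 400000
set_option synthInstance.maxSize 2048

namespace Pool.Agent.N410.DC

open Finset Pool.Agent.TH362.TF Pool.Agent.TH362.TF.Four Pool.Agent.R890.FF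

variable {V E : Type} [Fintype V] [DecidableEq V] [Fintype E] [DecidableEq E]

/-- the edges with exactly one end `y` -/
def ct (s t : E → V) (y : V) : Finset E := cut s t univ (fun u => decide (u = y))

theorem mem_ct {s t : E → V} {y : V} {e : E} : e ∈ ct s t y ↔ ¬ (s e = y ↔ t e = y) := by
  unfold ct cut
  rw [mem_filter]
  by_cases h1 : s e = y <;> by_cases h2 : t e = y <;> simp [h1, h2]

/-- handshake -/
theorem sum_ct (s t : E → V) : ∑ y, (ct s t y).card = 2 * (eIn s t univ).card := by
  have h1 : ∀ y : V, (ct s t y).card = ∑ e : E, (if e ∈ ct s t y then 1 else 0) := by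
    intro y
    rw [sum_boole]
    simp
  simp only [h1]
  rw [sum_comm]
  have h2 : ∀ e : E, (∑ y : V, if e ∈ ct s t y then 1 else 0) =
      if e ∈ eIn s t univ then 2 else 0 := by
    intro e
    by_cases he : s e = t e
    · rw [if_neg (fun h => (mem_eIn.1 h).2.2 he)]
      refine sum_eq_zero fun y _ => if_neg fun h => ?_
      rw [mem_ct, he] at h
      exact h Iff.rfl
    · rw [if_pos (mem_eIn.2 ⟨mem_univ _, mem_univ _, he⟩)]
      have h3 : ∀ y : V, (if e ∈ ct s t y then 1 else 0) =
          (if y = s e then 1 else 0) + (if y = t e then 1 else 0) := by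
        intro y
        by_cases h4 : y = s e
        · have h5 : y ≠ t e := fun h => he (h4.symm.trans h)
          have h6 : e ∈ ct s t y := by
            rw [mem_ct]
            intro h
            exact h5 (h.1 h4.symm).symm
          rw [if_pos h6, if_pos h4, if_neg h5]
        · by_cases h5 : y = t e
          · have h6 : e ∈ ct s t y := by
              rw [mem_ct]
              intro h
              exact h4 (h.2 h5.symm).symm
            rw [if_pos h6, if_neg h4, if_pos h5]
          · have h6 : e ∉ ct s t y := by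
              rw [mem_ct, not_not]
              exact ⟨fun h => absurd h.symm h4, fun h => absurd h.symm h5⟩
            rw [if_neg h6, if_neg h4, if_neg h5]
      simp only [h3]
      rw [sum_add_distrib, sum_ite_eq', sum_ite_eq']
      simp
  simp only [h2]
  rw [← sum_filter, sum_const, smul_eq_mul, mul_comm]
  congr 2
  ext e
  simp

/-- eighteen odd vertices with small degrees in a minimal quotient -/
theorem eighteen {s t : E → V} (h : Mq s t univ) :
    ∃ I : Finset V, I.card = 18 ∧ (∀ y ∈ I, Odd (ct s t y).card) ∧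
      ∑ y ∈ I, (ct s t y).card ≤ 66 := by
  classical
  set d : V → ℕ := fun y => (ct s t y).card with hd
  have hd1 : ∀ y, d y ≠ 1 := fun y => h.n1 _
  have hd2 : ∀ y, d y ≠ 2 := fun y => by
    have h1 := h.nb_ne_two y
    rw [← h.cut_nb y] at h1
    exact h1
  set N : Finset V := univ.filter (fun y => d y ≠ 0) with hN
  have hN3 : ∀ y ∈ N, 3 ≤ d y := by
    intro y hy
    have h1 := (mem_filter.1 hy).2
    have h2 := hd1 y
    have h3 := hd2 y
    omega
  have hO : ∀ y, y ∈ odd s t univ ↔ Odd (d y) := by
    intro y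
    rw [Nat.odd_iff]
    exact odd_iff_cut s t univ y
  have hON : odd s t univ ⊆ N := by
    intro y hy
    rw [hO] at hy
    refine mem_filter.2 ⟨mem_univ _, fun h0 => ?_⟩
    rw [h0] at hy
    exact absurd hy (by decide)
  have h18 := h.odd18
  have hNc : 18 ≤ N.card := h18.trans (card_le_card hON)
  have heN : eIn s t univ = eIn s t N := by
    refine (Subset.antisymm (fun e he => ?_) (eIn_mono s t (subset_univ _)))
    have h1 := mem_eIn.1 he
    have h2 : ∀ y, e ∈ ct s t y → y ∈ N := fun y hy =>
      mem_filter.2 ⟨mem_univ _, (card_pos.2 ⟨e, hy⟩).ne'⟩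
    refine mem_eIn.2 ⟨h2 _ ?_, h2 _ ?_, h1.2.2⟩
    · rw [mem_ct]
      intro h3
      exact h1.2.2 (h3.1 rfl).symm
    · rw [mem_ct]
      intro h3
      exact h1.2.2 (h3.2 rfl)
  have hsum : ∑ y ∈ N, d y = 2 * (eIn s t N).card := by
    rw [← heN, ← sum_ct s t]
    refine sum_subset (subset_univ _) fun y _ hy => ?_
    by_contra h0
    exact hy (mem_filter.2 ⟨mem_univ _, h0⟩)
  have hsp := sparse h N (by omega)
  have htot : ∑ y ∈ N, d y + 6 ≤ 4 * N.card := by omega
  set N3 : Finset V := N.filter (fun y => d y = 3) with hN3'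
  have h3odd : ∀ y ∈ N3, Odd (d y) := by
    intro y hy
    rw [(mem_filter.1 hy).2]
    decide
  rcases Nat.lt_or_ge N3.card 18 with hlt | hge
  · have hN3O : N3 ⊆ odd s t univ := fun y hy => (hO y).2 (h3odd y hy)
    obtain ⟨I, hI1, hI2, hI3⟩ := exists_subsuperset_card_eq hN3O hlt.le h18
    refine ⟨I, hI3, fun y hy => (hO y).1 (hI2 hy), ?_⟩
    -- sums of `d - 4` over the complements of `N3`
    have hIN : I ⊆ N := hI2.trans hON
    have h4 : ∀ y ∈ N \ N3, 4 ≤ d y := by
      intro y hy
      rw [mem_sdiff] at hy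
      have h1 := hN3 y hy.1
      have h2 : d y ≠ 3 := fun h0 => hy.2 (mem_filter.2 ⟨hy.1, h0⟩)
      omega
    have hN3N : N3 ⊆ N := filter_subset _ _
    have e1 : ∑ y ∈ N, d y = ∑ y ∈ N \ N3, d y + ∑ y ∈ N3, d y := (sum_sdiff hN3N).symm
    have e2 : ∑ y ∈ I, d y = ∑ y ∈ I \ N3, d y + ∑ y ∈ N3, d y := (sum_sdiff hI1).symm
    have e3 : ∑ y ∈ N3, d y = 3 * N3.card := by
      rw [sum_congr rfl (fun y hy => (mem_filter.1 hy).2), sum_const, smul_eq_mul, mul_comm]
    have e4 : ∑ y ∈ N \ N3, d y = ∑ y ∈ N \ N3, (d y - 4) + 4 * (N \ N3).card := by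
      rw [mul_comm, ← smul_eq_mul, ← sum_const, ← sum_add_distrib]
      exact sum_congr rfl fun y hy => (Nat.sub_add_cancel (h4 y hy)).symm
    have hsub : I \ N3 ⊆ N \ N3 := sdiff_subset_sdiff hIN (Subset.refl _)
    have e5 : ∑ y ∈ I \ N3, d y = ∑ y ∈ I \ N3, (d y - 4) + 4 * (I \ N3).card := by
      rw [mul_comm, ← smul_eq_mul, ← sum_const, ← sum_add_distrib]
      exact sum_congr rfl fun y hy => (Nat.sub_add_cancel (h4 y (hsub hy))).symm
    have e6 : ∑ y ∈ I \ N3, (d y - 4) ≤ ∑ y ∈ N \ N3, (d y - 4) :=
      sum_le_sum_of_subset hsub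
    have e7 : (N \ N3).card + N3.card = N.card := card_sdiff_add_card_eq_card hN3N
    have e8 : (I \ N3).card + N3.card = I.card := card_sdiff_add_card_eq_card hI1
    change ∑ y ∈ I, d y ≤ 66
    omega
  · obtain ⟨I, hI1, hI2⟩ := exists_subset_card_eq hge
    refine ⟨I, hI2, fun y hy => h3odd y (hI1 hy), ?_⟩
    have : ∑ y ∈ I, (ct s t y).card = ∑ y ∈ I, 3 :=
      sum_congr rfl fun y hy => (mem_filter.1 (hI1 hy)).2
    rw [this, sum_const, hI2, smul_eq_mul]
    norm_num

/-- any 18 disjoint sets of vertices with odd boundaries have at least 67 boundary edges in total -/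
def OddCuts (s t : E → V) : Prop :=
  ∀ X : Fin 18 → Finset V, (∀ i j, i ≠ j → Disjoint (X i) (X j)) →
    (∀ i, Odd (cut s t univ (fun v => decide (v ∈ X i))).card) →
    67 ≤ ∑ i, (cut s t univ (fun v => decide (v ∈ X i))).card

/-- the condition is inherited by quotients -/
theorem OddCuts.map {s t : E → V} (h : OddCuts s t) (ρ : V → V) :
    OddCuts (fun e => ρ (s e)) (fun e => ρ (t e)) := by
  intro X hX ho
  have key : ∀ i, cut (fun e => ρ (s e)) (fun e => ρ (t e)) univ (fun v => decide (v ∈ X i)) =
      cut s t univ (fun v => decide (v ∈ univ.filter (fun u => ρ u ∈ X i))) := by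
    intro i
    ext e
    simp [cut]
  simp only [key] at ho ⊢
  refine h _ (fun i j hij => ?_) ho
  rw [disjoint_left]
  intro v hv hv'
  exact (disjoint_left.1 (hX i j hij)) (mem_filter.1 hv).2 (mem_filter.1 hv').2

/-- **four flows of the graphs in which 18 disjoint odd cuts have 67 edges in total** -/
theorem flow_or_petersen (s t : E → V) (h1 : N1 s t univ) (h : OddCuts s t) :
    NZ s t univ ∨ PQ s t univ := by
  classical
  by_contra hc
  rw [not_or] at hc
  obtain ⟨π, hM⟩ := exists_Mq s t univ h1 hc.1 hc.2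
  obtain ⟨I, hI, ho, hs⟩ := eighteen hM
  set φ := (Finset.equivFinOfCardEq hI).symm with hφ
  have key : ∀ y : V, cut s t univ (fun v => decide (v ∈ univ.filter (fun u => π u = y))) =
      ct (fun e => π (s e)) (fun e => π (t e)) y := by
    intro y
    ext e
    simp [ct, cut]
  have h2 := h (fun i => univ.filter (fun u => π u = φ i)) (fun i j hij => by
    rw [disjoint_left]
    intro v hv hv'
    have h3 := (mem_filter.1 hv).2
    rw [(mem_filter.1 hv').2] at h3
    exact hij (φ.injective (Subtype.ext h3.symm))) (fun i => by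
      rw [key]
      exact ho _ (φ i).2)
  simp only [key] at h2
  have h3 : ∑ i, (ct (fun e => π (s e)) (fun e => π (t e)) (φ i)).card =
      ∑ y ∈ I, (ct (fun e => π (s e)) (fun e => π (t e)) y).card := by
    rw [← Finset.sum_coe_sort I]
    exact Equiv.sum_comp φ (fun y : I => (ct (fun e => π (s e)) (fun e => π (t e)) y).card)
  omega

end Pool.Agent.N410.DC
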