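import Pool.Agent.N410.DC.Cuts

/-!
# Graphs with large minimum degree: the boundaries of small sets
-/

set_option autoImplicit false
set_option linter.unusedSectionVars false
set_option synthInstance.maxHeartbeats 400000
set_option synthInstance.maxSize 2048

namespace Pool.Agent.N410.DC

open Finset Pool.Agent.TH362.TF Pool.Agent.TH362.TF.Four Pool.Agent.R890.FF

variable {V E : Type} [Fintype V] [DecidableEq V] [Fintype E] [DecidableEq E]

/-- every vertex has at least `k` different neighbours -/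
def Nbrs (s t : E → V) (k : ℕ) : Prop :=
  ∀ v : V, ∃ W : Finset V, k ≤ W.card ∧ ∀ w ∈ W, w ≠ v ∧ ∃ e, (s e = v ∧ t e = w) ∨ (s e = w ∧ t e = v)

/-- a set with at most `k` elements has at least `k` boundary edges -/
theorem small_bdy {s t : E → V} {k : ℕ} (h : Nbrs s t k) (X : Finset V) (h1 : 1 ≤ X.card)
    (hk : X.card ≤ k) : k ≤ (cut s t univ (fun v => decide (v ∈ X))).card := by
  classical
  choose W hW hN using h
  -- pairs
  set P : Finset (V × V) := X.sigma (fun v => W v \ X) |>.image (fun p => (p.1, p.2)) with hP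
  have hinj : Function.Injective (fun p : (_ : V) × V => (p.1, p.2)) := by
    rintro ⟨a, b⟩ ⟨c, d⟩ h
    simp only [Prod.mk.injEq] at h
    obtain ⟨rfl, rfl⟩ := h
    rfl
  have hPc : X.card * (k + 1 - X.card) ≤ P.card := by
    rw [hP, card_image_of_injective _ hinj, card_sigma, ← smul_eq_mul]
    refine card_nsmul_le_sum _ _ _ fun v hv => ?_
    have h2 : (W v ∩ X).card ≤ X.card - 1 := by
      rw [← card_erase_of_mem hv]
      refine card_le_card fun w hw => ?_
      rw [mem_inter] at hw
      exact mem_erase.2 ⟨(hN v w hw.1).1, hw.2⟩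
    have h3 : (W v \ X).card + (W v ∩ X).card = (W v).card := card_sdiff_add_card_inter _ _
    have h4 := hW v
    omega
  have hPcut : P.card ≤ (cut s t univ (fun v => decide (v ∈ X))).card := by
    have hex : ∀ p ∈ P, ∃ e, (s e = p.1 ∧ t e = p.2) ∨ (s e = p.2 ∧ t e = p.1) := by
      intro p hp
      obtain ⟨q, hq, rfl⟩ := mem_image.1 hp
      rw [mem_sigma, mem_sdiff] at hq
      exact (hN _ _ hq.2.1).2
    have hXP : ∀ p ∈ P, p.1 ∈ X ∧ p.2 ∉ X := by
      intro p hp
      obtain ⟨q, hq, rfl⟩ := mem_image.1 hp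
      rw [mem_sigma, mem_sdiff] at hq
      exact ⟨hq.1, hq.2.2⟩
    rcases P.eq_empty_or_nonempty with h0 | ⟨p0, hp0⟩
    · rw [h0]; simp
    have : Nonempty E := ⟨(hex p0 hp0).choose⟩
    choose! g hg using hex
    refine card_le_card_of_injOn g ?_ ?_
    · intro p hp
      have h2 := hXP p hp
      rw [mem_coe]
      unfold cut
      rw [mem_filter]
      refine ⟨mem_univ _, ?_⟩
      rcases hg p hp with ⟨h3, h4⟩ | ⟨h3, h4⟩ <;> simp [h3, h4, h2.1, h2.2]
    · intro p hp q hq hpq
      have h2 := hXP p hp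
      have h3 := hXP q hq
      have h4 := hg p hp
      have h5 := hg q hq
      rw [hpq] at h4
      rcases h4 with ⟨a1, a2⟩ | ⟨a1, a2⟩ <;> rcases h5 with ⟨b1, b2⟩ | ⟨b1, b2⟩
      · exact Prod.ext (a1.symm.trans b1) (a2.symm.trans b2)
      · exact absurd (a1.symm.trans b1 ▸ h2.1) h3.2
      · exact absurd (b1.symm.trans a1 ▸ h3.1) h2.2
      · exact Prod.ext (a2.symm.trans b2) (a1.symm.trans b1)
  refine le_trans ?_ (hPc.trans hPcut)
  -- `k ≤ x (k + 1 - x)`
  obtain ⟨a, ha⟩ : ∃ a, X.card = a + 1 := ⟨X.card - 1, by omega⟩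
  obtain ⟨b, hb⟩ : ∃ b, k = X.card + b := ⟨k - X.card, by omega⟩
  have h5 : k + 1 - X.card = b + 1 := by omega
  rw [h5, ha]
  rw [ha] at hb
  rw [hb]
  nlinarith [Nat.zero_le (a * b)]

/-- at least `j` of 18 disjoint sets have at most `k` elements -/
theorem few_large (k j : ℕ) (hj : j ≤ 18) (hV : Fintype.card V < (19 - j) * (k + 1))
    (X : Fin 18 → Finset V) (hX : ∀ i i', i ≠ i' → Disjoint (X i) (X i')) :
    j ≤ (univ.filter (fun i => (X i).card ≤ k)).card := by
  classical
  by_contra hc
  have h1 : (univ.filter (fun i => (X i).card ≤ k)).card +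
      (univ.filter (fun i => ¬ (X i).card ≤ k)).card = 18 := by
    rw [card_filter_add_card_filter_not, card_univ, Fintype.card_fin]
  have h2 : (univ.filter (fun i => ¬ (X i).card ≤ k)).card * (k + 1) ≤
      ((univ.filter (fun i => ¬ (X i).card ≤ k)).biUnion X).card := by
    rw [card_biUnion (fun i _ i' _ hii => hX i i' hii), ← smul_eq_mul]
    refine card_nsmul_le_sum _ _ _ fun i hi => ?_
    have := (mem_filter.1 hi).2
    omega
  have h3 : ((univ.filter (fun i => ¬ (X i).card ≤ k)).biUnion X).card ≤ Fintype.card V :=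
    card_le_univ _
  have h4 : 19 - j ≤ (univ.filter (fun i => ¬ (X i).card ≤ k)).card := by omega
  have h5 : (19 - j) * (k + 1) ≤ (univ.filter (fun i => ¬ (X i).card ≤ k)).card * (k + 1) :=
    Nat.mul_le_mul_right _ h4
  omega

/-- the total boundary if `j` sets have at least `m` boundary edges -/
theorem total {s t : E → V} (h1 : N1 s t univ) (X : Fin 18 → Finset V)
    (ho : ∀ i, Odd (cut s t univ (fun v => decide (v ∈ X i))).card) (m j : ℕ) (J : Finset (Fin 18))
    (hJ : j ≤ J.card) (hm : 3 ≤ m)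
    (hb : ∀ i ∈ J, m ≤ (cut s t univ (fun v => decide (v ∈ X i))).card) :
    54 + j * (m - 3) ≤ ∑ i, (cut s t univ (fun v => decide (v ∈ X i))).card := by
  classical
  have h3 : ∀ i, 3 ≤ (cut s t univ (fun v => decide (v ∈ X i))).card := by
    intro i
    have h2 := h1 (fun v => decide (v ∈ X i))
    obtain ⟨a, ha⟩ := ho i
    omega
  have h4 : ∑ i, (3 + if i ∈ J then m - 3 else 0) ≤
      ∑ i, (cut s t univ (fun v => decide (v ∈ X i))).card := by
    refine sum_le_sum fun i _ => ?_
    split_ifs with h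
    · have := hb i h
      omega
    · exact h3 i
  rw [sum_add_distrib, sum_const, card_univ, Fintype.card_fin, ← sum_filter, sum_const,
    smul_eq_mul, smul_eq_mul] at h4
  have h5 : (univ.filter (fun i => i ∈ J)) = J := by
    ext i; simp
  rw [h5] at h4
  have h6 : j * (m - 3) ≤ J.card * (m - 3) := Nat.mul_le_mul_right _ hJ
  omega

/-- **dense graphs** -/
theorem oddCuts_of_nbrs {s t : E → V} (h1 : N1 s t univ) {k : ℕ} (h : Nbrs s t k)
    (hk : (16 ≤ k ∧ Fintype.card V < 18 * (k + 1)) ∨ (10 ≤ k ∧ Fintype.card V < 17 * (k + 1)) ∨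
      (4 ≤ k ∧ Fintype.card V < 12 * (k + 1))) :
    OddCuts s t := by
  classical
  intro X hX ho
  have hne : ∀ i, 1 ≤ (X i).card := by
    intro i
    by_contra hc
    have h0 : X i = ∅ := card_eq_zero.1 (by omega)
    have h2 := ho i
    rw [h0] at h2
    have h3 : cut s t univ (fun v => decide (v ∈ (∅ : Finset V))) = ∅ := by
      ext e; simp [cut]
    rw [h3, card_empty] at h2
    exact absurd h2 (by decide)
  have hb : ∀ i ∈ univ.filter (fun i => (X i).card ≤ k),
      k ≤ (cut s t univ (fun v => decide (v ∈ X i))).card := fun i hi =>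
    small_bdy h (X i) (hne i) (mem_filter.1 hi).2
  rcases hk with ⟨h2, h3⟩ | ⟨h2, h3⟩ | ⟨h2, h3⟩
  · have h4 := few_large (V := V) k 1 (by norm_num) (by simpa using h3) X hX
    have h5 := total h1 X ho 16 1 _ h4 (by norm_num) (fun i hi => h2.trans (hb i hi))
    omega
  · have h4 := few_large (V := V) k 2 (by norm_num) (by simpa using h3) X hX
    have h5 := total h1 X ho 11 2 _ h4 (by norm_num) (fun i hi => by
      obtain ⟨a, ha⟩ := ho i
      have := hb i hi
      omega)
    omega
  · have h4 := few_large (V := V) k 7 (by norm_num) (by simpa using h3) X hX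
    have h5 := total h1 X ho 5 7 _ h4 (by norm_num) (fun i hi => by
      obtain ⟨a, ha⟩ := ho i
      have := hb i hi
      omega)
    omega

end Pool.Agent.N410.DC
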