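import Pool.Agent.N410.DC.Gen
import Pool.Agent.R545.IN.Main

/-!
# Five sets with three boundary edges which are never far from each other
-/

set_option autoImplicit false
set_option linter.unusedSectionVars false
set_option synthInstance.maxHeartbeats 400000
set_option synthInstance.maxSize 2048

namespace Pool.Agent.N410.DC

open Finset Pool.Agent.TH362.TF Pool.Agent.TH362.TF.Four Pool.Agent.R890.FF Pool.Agent.TH676.Z
open Pool.Agent.R926.SC
open Pool.Agent.R545.IN (Good Thr Ind thr5 good_nb)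

variable {V E : Type} [Fintype V] [DecidableEq V] [Fintype E] [DecidableEq E]

/-- a minimal quotient has twelve vertices of degree three -/
theorem twelve {s t : E → V} (h : Mq s t univ) :
    12 ≤ (univ.filter (fun y => (ct s t y).card = 3)).card := by
  classical
  set d : V → ℕ := fun y => (ct s t y).card with hd
  have hd1 : ∀ y, d y ≠ 1 := fun y => h.n1 _
  have hd2 : ∀ y, d y ≠ 2 := fun y => by
    have h1 := h.nb_ne_two y
    rw [← h.cut_nb y] at h1
    exact h1
  set N : Finset V := univ.filter (fun y => d y ≠ 0) with hN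
  have hN3 : ∀ y ∈ N, 3 ≤ d y := by
    intro y hy
    have h1 := (mem_filter.1 hy).2
    have h2 := hd1 y
    have h3 := hd2 y
    omega
  have hO : ∀ y, y ∈ odd s t univ ↔ d y % 2 = 1 := fun y => odd_iff_cut s t univ y
  have hON : odd s t univ ⊆ N := by
    intro y hy
    rw [hO] at hy
    refine mem_filter.2 ⟨mem_univ _, fun h0 => ?_⟩
    rw [h0] at hy
    exact absurd hy (by decide)
  have h18 := h.odd18
  have hNc : 18 ≤ N.card := h18.trans (card_le_card hON)
  have heN : eIn s t univ = eIn s t N := by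
    refine (Subset.antisymm (fun e he => ?_) (eIn_mono s t (subset_univ _)))
    have h1 := mem_eIn.1 he
    have h2 : ∀ y, e ∈ ct s t y → y ∈ N := fun y hy =>
      mem_filter.2 ⟨mem_univ _, (card_pos.2 ⟨e, hy⟩).ne'⟩
    refine mem_eIn.2 ⟨h2 _ ?_, h2 _ ?_, h1.2.2⟩
    · rw [mem_ct]
      intro h3
      exact h1.2.2 (h3.1 rfl).symm
    · rw [mem_ct]
      intro h3
      exact h1.2.2 (h3.2 rfl)
  have hsum : ∑ y ∈ N, d y = 2 * (eIn s t N).card := by
    rw [← heN, ← sum_ct s t]
    refine sum_subset (subset_univ _) fun y _ hy => ?_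
    by_contra h0
    exact hy (mem_filter.2 ⟨mem_univ _, h0⟩)
  have hsp := sparse h N (by omega)
  have hc1 : ∑ y ∈ N, (4 + if d y % 2 = 1 then 1 else 0) ≤
      ∑ y ∈ N, (d y + 2 * (if d y = 3 then 1 else 0)) := by
    refine sum_le_sum fun y hy => ?_
    have h1 := hN3 y hy
    split_ifs <;> omega
  rw [sum_add_distrib, sum_add_distrib, sum_const, smul_eq_mul, ← mul_sum, sum_boole, sum_boole] at hc1
  have h2 : (odd s t univ).card ≤ (N.filter (fun y => d y % 2 = 1)).card := by
    refine card_le_card fun y hy => mem_filter.2 ⟨hON hy, (hO y).1 hy⟩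
  have h3 : (N.filter (fun y => d y = 3)).card ≤ (univ.filter (fun y => d y = 3)).card :=
    card_le_card (filter_subset_filter _ (subset_univ _))
  simp only [Nat.cast_id] at hc1
  change 12 ≤ (univ.filter (fun y => d y = 3)).card
  omega

/-- the edge `e` joins the set `X` and the vertex `a` -/
def JnS (s t : E → V) (X : Finset V) (a : V) (e : E) : Prop :=
  (s e ∈ X ∧ t e = a) ∨ (s e = a ∧ t e ∈ X)

/-- The sets `X` and `Y` are joined by an edge, or by two different paths with two edges. -/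
def CloseS (s t : E → V) (X Y : Finset V) : Prop :=
  (∃ e, (s e ∈ X ∧ t e ∈ Y) ∨ (s e ∈ Y ∧ t e ∈ X)) ∨
    ∃ (e f e' f' : E) (a b : V), (e ≠ e' ∨ f ≠ f') ∧ JnS s t X a e ∧ JnS s t Y a f ∧
      JnS s t X b e' ∧ JnS s t Y b f'

/-- among any five disjoint sets with three boundary edges, none in `F`, two are close -/
def Far5 (s t : E → V) (F : Finset E) : Prop :=
  ∀ X : Fin 5 → Finset V, (∀ i j, i ≠ j → Disjoint (X i) (X j)) →
    (∀ i, Disjoint (crs s t (X i)) F) → (∀ i, (crs s t (X i)).card = 3) →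
    ∃ i j, i ≠ j ∧ CloseS s t (X i) (X j)

theorem jnS_map {s t : E → V} {X : Finset V} {a : V} {e : E} (ρ : V → V)
    (h : JnS s t (univ.filter (fun v => ρ v ∈ X)) a e) : JnS (ρ ∘ s) (ρ ∘ t) X (ρ a) e := by
  rcases h with ⟨h1, h2⟩ | ⟨h1, h2⟩
  · exact Or.inl ⟨(mem_filter.1 h1).2, congrArg ρ h2⟩
  · exact Or.inr ⟨congrArg ρ h1, (mem_filter.1 h2).2⟩

theorem closeS_map {s t : E → V} {X Y : Finset V} (ρ : V → V)
    (h : CloseS s t (univ.filter (fun v => ρ v ∈ X)) (univ.filter (fun v => ρ v ∈ Y))) :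
    CloseS (ρ ∘ s) (ρ ∘ t) X Y := by
  rcases h with ⟨e, h⟩ | ⟨e, f, e', f', a, b, hne, h1, h2, h3, h4⟩
  · left
    refine ⟨e, ?_⟩
    rcases h with ⟨h1, h2⟩ | ⟨h1, h2⟩
    · exact Or.inl ⟨(mem_filter.1 h1).2, (mem_filter.1 h2).2⟩
    · exact Or.inr ⟨(mem_filter.1 h1).2, (mem_filter.1 h2).2⟩
  · exact Or.inr ⟨e, f, e', f', ρ a, ρ b, hne, jnS_map ρ h1, jnS_map ρ h2, jnS_map ρ h3,
      jnS_map ρ h4⟩

theorem far5_flow {s t : E → V} (h : Far5 s t ∅) (h1 : N1 s t univ) :
    NZ s t univ ∨ PQ s t univ := by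
  classical
  by_contra hc
  rw [not_or] at hc
  obtain ⟨π, hM⟩ := exists_Mq s t univ h1 hc.1 hc.2
  set s' : E → V := fun e => π (s e) with hs'
  set t' : E → V := fun e => π (t e) with ht'
  obtain ⟨I, hI, hIc, hi⟩ := thr5 (good_nb hM) _ (twelve hM)
  set φ := (Finset.equivFinOfCardEq hIc).symm with hφ
  have key : ∀ y : V, crs s t (univ.filter (fun u => π u ∈ ({y} : Finset V))) = ct s' t' y := by
    intro y
    ext e
    rw [mem_crs, mem_ct]
    simp [hs', ht']
  obtain ⟨i, j, hij, hcl⟩ := h (fun i => univ.filter (fun u => π u ∈ ({(φ i : V)} : Finset V)))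
    (fun i j hij => by
      rw [disjoint_left]
      intro v hv hv'
      have h3 := mem_singleton.1 (mem_filter.1 hv).2
      rw [mem_singleton.1 (mem_filter.1 hv').2] at h3
      exact hij (φ.injective (Subtype.ext h3.symm)))
    (fun i => disjoint_empty_right _)
    (fun i => by
      rw [key]
      exact (mem_filter.1 (hI (φ i).2)).2)
  have hcl' := closeS_map π hcl
  have hXY : (φ i : V) ≠ φ j := fun h2 => hij (φ.injective (Subtype.ext h2))
  have hno : ¬ Nb s' t' univ (φ i : V) (φ j) := hi _ (φ i).2 _ (φ j).2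
  have hends : ∀ {y a : V} {e : E}, JnS (π ∘ s) (π ∘ t) {y} a e → Ends s' t' y a e := by
    intro y a e he
    rcases he with ⟨h2, h3⟩ | ⟨h2, h3⟩
    · exact Or.inl ⟨mem_singleton.1 h2, h3⟩
    · exact Or.inr ⟨h2, mem_singleton.1 h3⟩
  have hends' : ∀ {y a : V} {e : E}, Ends s' t' y a e → Ends s' t' a y e := by
    intro y a e he
    rcases he with ⟨h2, h3⟩ | ⟨h2, h3⟩
    · exact Or.inr ⟨h2, h3⟩
    · exact Or.inl ⟨h2, h3⟩
  rcases hcl' with ⟨e, hE⟩ | ⟨e, f, e', f', a, b, hne, E1, E2, E3, E4⟩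
  · refine hno ⟨hXY.symm, e, mem_univ _, ?_⟩
    rcases hE with ⟨h2, h3⟩ | ⟨h2, h3⟩
    · exact Or.inl ⟨mem_singleton.1 h2, mem_singleton.1 h3⟩
    · exact Or.inr ⟨mem_singleton.1 h2, mem_singleton.1 h3⟩
  · have mid : ∀ (e f : E) (a : V), Ends s' t' (φ i : V) a e → Ends s' t' a (φ j) f →
        a ≠ φ i ∧ a ≠ φ j := by
      intro e f a k1 k2
      refine ⟨fun k3 => ?_, fun k3 => ?_⟩
      · rw [k3] at k2
        exact hno ⟨hXY.symm, f, mem_univ _, k2⟩
      · rw [k3] at k1
        exact hno ⟨hXY.symm, e, mem_univ _, k1⟩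
    have F1 := hends E1
    have F2 := hends' (hends E2)
    have F3 := hends E3
    have F4 := hends' (hends E4)
    obtain ⟨A1, A2⟩ := mid e f a F1 F2
    obtain ⟨B1, B2⟩ := mid e' f' b F3 F4
    by_cases hab : a = b
    · rw [← hab] at F3 F4
      have k3 := hM.nopar A1.symm (mem_univ e) (mem_univ e') F1 F3
      have k4 := hM.nopar A2 (mem_univ f) (mem_univ f') F2 F4
      rcases hne with hne | hne
      · exact hne k3
      · exact hne k4
    · exact hM.four (a := (φ i : V)) (b := a) (c := φ j) (d := b) hXY hab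
        ⟨A1, e, mem_univ _, F1⟩ ⟨A2.symm, f, mem_univ _, F2⟩
        (nb_comm ⟨B2.symm, f', mem_univ _, F4⟩)
        (nb_comm ⟨B1, e', mem_univ _, F3⟩)

/-- **The condition is inherited by quotients.** -/
theorem inh_far5 : Inh (V := V) (E := E) Far5 where
  map := by
    intro s t F ρ h X hX hF h3
    simp only [crs_comp] at hF h3
    obtain ⟨i, j, hij, hc⟩ := h _ (fun i j hij => by
      rw [disjoint_left]
      intro v hv hv'
      exact (disjoint_left.1 (hX i j hij)) (mem_filter.1 hv).2 (mem_filter.1 hv').2) hF h3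
    exact ⟨i, j, hij, closeS_map ρ hc⟩
  loops := by
    intro s t F h hl X hX _ h3
    refine h X hX (fun i => ?_) h3
    rw [disjoint_left]
    intro e he heF
    rw [mem_crs, hl e heF] at he
    exact he Iff.rfl
  flow := fun h h1 => far5_flow h h1

end Pool.Agent.N410.DC
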