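import Pool.Agent.N410.DC.Chain
import Pool.Agent.R890.FF.Oc5
import Pool.Agent.R545.PC.Main
import Pool.Agent.R890.FF.BF

/-!
# Conditions on graphs which are inherited by quotients
-/

set_option autoImplicit false
set_option linter.unusedSectionVars false
set_option synthInstance.maxHeartbeats 400000
set_option synthInstance.maxSize 2048

namespace Pool.Agent.N410.DC

open Finset Pool.Agent.TH362.TF Pool.Agent.R890.FF Pool.Agent.TH676.Z Pool.Agent.R926.SC

variable {V E : Type} [Fintype V] [DecidableEq V] [Fintype E] [DecidableEq E]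

/-- a condition (on a graph and a set of edges which may be contracted) which is inherited by
quotients, and implies that there is a flow or a Petersen quotient -/
structure Inh (K : (E → V) → (E → V) → Finset E → Prop) : Prop where
  map : ∀ {s t : E → V} {F : Finset E} (ρ : V → V), K s t F → K (ρ ∘ s) (ρ ∘ t) F
  loops : ∀ {s t : E → V} {F : Finset E}, K s t F → (∀ e ∈ F, s e = t e) → K s t ∅
  flow : ∀ {s t : E → V}, K s t ∅ → N1 s t univ → NZ s t univ ∨ PQ s t univ

/-- the class of the graphs with a chain of contractible pieces -/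
def GCl (K : (E → V) → (E → V) → Finset E → Prop) (s t : E → V) : Prop :=
  ∃ (m : ℕ) (C : Fin m → Finset E), Chain s t C ∧ K s t (univ.biUnion C)

variable {K : (E → V) → (E → V) → Finset E → Prop}

theorem GCl.map (hK : Inh K) {s t : E → V} (h : GCl K s t) (ρ : V → V) :
    GCl K (fun e => ρ (s e)) (fun e => ρ (t e)) := by
  obtain ⟨m, C, h1, h2⟩ := h
  exact ⟨m, C, fun i => st_map s t ρ _ _ (h1 i), hK.map ρ h2⟩

/-- **graphs in the class have a nowhere-zero 4-flow or a Petersen quotient** -/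
theorem GCl.flow (hK : Inh K) {s t : E → V} (h : GCl K s t) (h1 : N1 s t univ) :
    NZ s t univ ∨ PQ s t univ := by
  obtain ⟨m, C, hC, hO⟩ := h
  set F := univ.biUnion C with hF
  obtain ⟨r, q1, -, -, q4⟩ := quotC s t F
  have hN : N1 (fun e => r (s e)) (fun e => r (t e)) univ :=
    quot_n1 (S' := univ) (Subset.refl _) (fun e h h' => absurd h h') h1
  rcases hK.flow (hK.loops (hK.map r hO) (fun e he => q1 e he)) hN with h3 | h3
  · left
    have h4 : FlA s t F := flA_of_nz s t F r q4 h3
    obtain ⟨x, y, b1, b2, b3⟩ := foldM Pool.Agent.Y335.FL.circEx s t m C hC h4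
    refine ⟨fun e => (x e, y e), fun e _ => ?_, fun v => cons_of s t x y v (b1 v) (b2 v)⟩
    intro h7
    rcases b3 e (notMem_empty e) with h8 | h8
    · exact h8 (congrArg Prod.fst h7)
    · exact h8 (congrArg Prod.snd h7)
  · right
    exact quot_pq (s := s) (t := t) (f := r) (S := univ) (S' := univ) (Subset.refl _)
      (fun e h h' => absurd h h') h3

/-- with the steps in the form of the results -/
theorem GCl.of_steps {s t : E → V} {m : ℕ} {C : Fin m → Finset E}
    (h : ∀ i, (((C i \ (univ.filter (fun j => j < i)).biUnion C).card ≤ 4 ∧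
        ∀ Y : Finset V, Disjoint (crs s t Y) ((univ.filter (fun j => j < i)).biUnion C) →
          (crs s t Y ∩ C i).card ≠ 1) ∨
      ∃ T₁ T₂ : Finset E, T₁ ⊆ C i ∧ T₂ ⊆ C i ∧ Disjoint T₁ T₂ ∧
        ∀ Y : Finset V, Disjoint (crs s t Y) ((univ.filter (fun j => j < i)).biUnion C) →
          ¬ Disjoint (crs s t Y) (C i) →
            ¬ Disjoint (crs s t Y) T₁ ∧ ¬ Disjoint (crs s t Y) T₂))
    (hO : K s t (univ.biUnion C)) : GCl K s t :=
  ⟨m, C, st_of s t m C h, hO⟩

/-! ## the six conclusions -/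

open Pool.Agent.H160R2.HF Pool.Agent.H23.PS in
theorem oc_gen (hK : Inh K) (G : OrGraph V E) (h : G.Bridgeless) (hC : GCl K G.t G.h) :
    FiveClasses G := by
  have h1 := sgn_class hom3U petOc classes_of_nz (Cl := fun s t : E → V => GCl K s t)
    (fun s t π h => h.map hK π) (fun s t h h' => h.flow hK h') _ G.t G.h rfl hC
    (n1_of_bridgeless G h)
  rw [classes_iff] at h1
  exact h1

section

open Pool.Agent.TH676.A (Alg FlowOn)
open Pool.Agent.TH497.BF (G Ag inA algAg)

variable {Γ : Type} [AddCommGroup Γ] {A : Γ → Prop}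

theorem alg_gen (hK : Inh K) (hA : Alg A) {val : Fin 10 → Fin 10 → Γ} (hv : Pet A val)
    (h4 : ∃ σ : Pool.Agent.TH362.TF.F →+ Γ, ∀ x, x ≠ 0 → A (σ x)) (s t : E → V) (hN : N1 s t univ)
    (h : GCl K s t) : FlowOn A s t ∅ ∅ :=
  alg_class hA hv h4 (Cl := fun s t : E → V => GCl K s t) (fun s t π h => h.map hK π)
    (fun s t h h' => h.flow hK h') _ s t rfl h hN

theorem bf_gen (hK : Inh K) (s t : E → V) (hB : Pool.Agent.TH676.A.Br s t ∅ ∅) (h : GCl K s t) :
    FlowOn Ag s t ∅ ∅ :=
  alg_gen hK algAg petBF ⟨embBF, Pool.Agent.R890.FF.emb_A⟩ s t (n1_of_br hB) h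

open Pool.Agent.H160R2.CC Pool.Agent.H160R2.CC.MGraph in
theorem succ_gen (G : MGraph) {K : (G.E → G.V) → (G.E → G.V) → Finset G.E → Prop} (hK : Inh K)
    (hB : ¬ G.HasCutEdge) (h : GCl K G.src G.tgt) : Succ G petersen :=
  Pool.Agent.R545.PC.succ_of_flow G (alg_gen hK Pool.Agent.R545.PC.algPC Pool.Agent.R545.PC.petPC
    ⟨Pool.Agent.R545.PC.emb, Pool.Agent.R545.PC.emb_A⟩ G.src G.tgt
    (Pool.Agent.R545.PC.n1_of_cut G hB) h)

end

end Pool.Agent.N410.DC
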