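import Pool.Agent.N410.DC.Chain
import Pool.Agent.R890.FF.Oc5

/-!
# Orientable five cycle double covers
-/

set_option autoImplicit false
set_option linter.unusedSectionVars false
set_option synthInstance.maxHeartbeats 400000
set_option synthInstance.maxSize 2048

namespace Pool.Agent.N410.DC

open Finset Pool.Agent.TH362.TF Pool.Agent.R890.FF Pool.Agent.H160R2.HF Pool.Agent.H23.PS

variable {V E : Type} [Fintype V] [DecidableEq V] [Fintype E] [DecidableEq E]

theorem oc_cl (K : OrGraph V E) (h : K.Bridgeless) (hC : Cl K.t K.h) : FiveClasses K := by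
  have h1 := sgn_class hom3U petOc classes_of_nz (Cl := fun s t : E → V => Cl s t)
    (fun s t π h => h.map π) (fun s t h h' => h.flow h') _ K.t K.h rfl hC
    (n1_of_bridgeless K h)
  rw [classes_iff] at h1
  exact h1

/-- degrees of a simple graph -/
theorem nbrs_orient (S : SimpleGraph V) [DecidableRel S.Adj] [Fintype S.edgeSet]
    [DecidableEq S.edgeSet] {k : ℕ} (h : ∀ v, k ≤ S.degree v) :
    Nbrs (orient S).t (orient S).h k := by
  intro v
  refine ⟨S.neighborFinset v, h v, fun w hw => ?_⟩
  rw [SimpleGraph.mem_neighborFinset] at hw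
  obtain ⟨e, he, -⟩ := (orient_is S).2 v w hw
  exact ⟨hw.ne', e, he.imp id (fun h => ⟨h.2, h.1⟩)⟩

end Pool.Agent.N410.DC
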