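import Pool.Agent.N410.DC.Gen

/-!
# Partitions with at least 18 classes with odd boundary
-/

set_option autoImplicit false
set_option linter.unusedSectionVars false
set_option synthInstance.maxHeartbeats 400000
set_option synthInstance.maxSize 2048

namespace Pool.Agent.N410.DC

open Finset Pool.Agent.TH362.TF Pool.Agent.TH362.TF.Four Pool.Agent.R890.FF Pool.Agent.TH676.Z
open Pool.Agent.R926.SC

variable {V E : Type} [Fintype V] [DecidableEq V] [Fintype E] [DecidableEq E]

/-- quotients with at least 18 vertices of odd degree and `k` vertices which are not isolated have at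
least `2 k - 2` edges -/
def PartN (s t : E → V) (F : Finset E) : Prop :=
  ∀ p : V → V, (∀ e ∈ F, p (s e) = p (t e)) →
    18 ≤ (univ.filter (fun y => Odd (ct (p ∘ s) (p ∘ t) y).card)).card →
    2 * (univ.filter (fun y => ct (p ∘ s) (p ∘ t) y ≠ ∅)).card ≤
      (univ.filter (fun e => p (s e) ≠ p (t e))).card + 2

/-- **The condition is inherited by quotients.** -/
theorem inh_part : Inh (V := V) (E := E) PartN where
  map := by
    intro s t F ρ h p hF h18
    exact h (p ∘ ρ) (fun e he => hF e he) h18
  loops := by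
    intro s t F h hl p _ h18
    exact h p (fun e he => congrArg p (hl e he)) h18
  flow := by
    classical
    intro s t h h1
    by_contra hc
    rw [not_or] at hc
    obtain ⟨π, hM⟩ := exists_Mq s t univ h1 hc.1 hc.2
    set s' : E → V := π ∘ s with hs'
    set t' : E → V := π ∘ t with ht'
    change Mq s' t' univ at hM
    have hO : ∀ y, y ∈ odd s' t' univ ↔ Odd (ct s' t' y).card := by
      intro y
      rw [Nat.odd_iff]
      exact odd_iff_cut s' t' univ y
    have h18 : 18 ≤ (univ.filter (fun y => Odd (ct s' t' y).card)).card := by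
      refine hM.odd18.trans (card_le_card fun y hy => ?_)
      exact mem_filter.2 ⟨mem_univ _, (hO y).1 hy⟩
    have h2 := h π (fun e he => absurd he (notMem_empty e)) h18
    set N : Finset V := univ.filter (fun y => ct s' t' y ≠ ∅) with hN
    have hNc : 2 ≤ N.card := by
      refine le_trans (by norm_num) (h18.trans (card_le_card fun y hy => ?_))
      have h3 := (mem_filter.1 hy).2
      refine mem_filter.2 ⟨mem_univ _, fun h0 => ?_⟩
      rw [h0, card_empty] at h3
      exact absurd h3 (by decide)
    have hsp := sparse hM N hNc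
    have heN : (univ.filter (fun e => π (s e) ≠ π (t e))) ⊆ eIn s' t' N := by
      intro e he
      have h1 : π (s e) ≠ π (t e) := (mem_filter.1 he).2
      have h2 : ∀ y, e ∈ ct s' t' y → y ∈ N := fun y hy =>
        mem_filter.2 ⟨mem_univ _, ne_empty_of_mem hy⟩
      refine mem_eIn.2 ⟨h2 _ ?_, h2 _ ?_, h1⟩
      · rw [mem_ct]
        intro h3
        exact h1 (h3.1 rfl).symm
      · rw [mem_ct]
        intro h3
        exact h1 (h3.2 rfl)
    have h3 := card_le_card heN
    omega

/-- the `i`-th class -/
def part {k : ℕ} (p : V → Fin k) (i : Fin k) : Finset V := univ.filter (fun v => p v = i)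

theorem mem_part {k : ℕ} {p : V → Fin k} {i : Fin k} {v : V} : v ∈ part p i ↔ p v = i := by
  simp [part]

/-- every partition into `k` classes, at least 18 of them with odd boundary, has at least `2 k - 2`
crossing edges -/
def Part (s t : E → V) (F : Finset E) : Prop :=
  ∀ (k : ℕ) (p : V → Fin k), Function.Surjective p → (∀ e ∈ F, p (s e) = p (t e)) →
    18 ≤ (univ.filter (fun i => Odd (crs s t (part p i)).card)).card →
    2 * k ≤ (univ.filter (fun e => p (s e) ≠ p (t e))).card + 2

theorem Part.toN {s t : E → V} {F : Finset E} (h : Part s t F) : PartN s t F := by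
  classical
  intro P hF h18
  set B : Finset V := univ.filter (fun y => ct (P ∘ s) (P ∘ t) y ≠ ∅) with hB
  have hmB : ∀ x, x ∈ B ↔ ct (P ∘ s) (P ∘ t) x ≠ ∅ := fun x => by simp [hB]
  have hends : ∀ e, P (s e) ≠ P (t e) → P (s e) ∈ B ∧ P (t e) ∈ B := by
    intro e he
    constructor
    · rw [hmB]
      refine ne_empty_of_mem (a := e) ?_
      rw [mem_ct]
      intro h3
      exact he (h3.1 rfl).symm
    · rw [hmB]
      refine ne_empty_of_mem (a := e) ?_
      rw [mem_ct]
      intro h3
      exact he (h3.2 rfl)
  have hodd : ∀ y ∈ univ.filter (fun y => Odd (ct (P ∘ s) (P ∘ t) y).card), y ∈ B := by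
    intro y hy
    have h3 := (mem_filter.1 hy).2
    rw [hmB]
    intro h0
    rw [h0, card_empty] at h3
    exact absurd h3 (by decide)
  obtain ⟨y0, hy0'⟩ := card_pos.1 (show 0 < (univ.filter (fun y =>
    Odd (ct (P ∘ s) (P ∘ t) y).card)).card by omega)
  have hy0 := hodd y0 hy0'
  set k := B.card with hk
  set φ : B ≃ Fin k := B.equivFin with hφ
  set q : V → V := fun v => if P v ∈ B then P v else y0 with hq'
  have hqB : ∀ v, q v ∈ B := by
    intro v
    by_cases h1 : P v ∈ B
    · simp only [hq', if_pos h1]; exact h1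
    · simp only [hq', if_neg h1]; exact hy0
  have hqe : ∀ e, P (s e) ≠ P (t e) → q (s e) = P (s e) ∧ q (t e) = P (t e) := by
    intro e he
    obtain ⟨h1, h2⟩ := hends e he
    exact ⟨if_pos h1, if_pos h2⟩
  have hqe' : ∀ e, P (s e) = P (t e) → q (s e) = q (t e) := by
    intro e he
    simp only [hq', he]
  have hqiff : ∀ e, q (s e) ≠ q (t e) ↔ P (s e) ≠ P (t e) := by
    intro e
    constructor
    · intro h1 h2
      exact h1 (hqe' e h2)
    · intro h1
      rw [(hqe e h1).1, (hqe e h1).2]
      exact h1
  set p : V → Fin k := fun v => φ ⟨q v, hqB v⟩ with hp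
  have hpiff : ∀ e, p (s e) ≠ p (t e) ↔ P (s e) ≠ P (t e) := by
    intro e
    rw [← hqiff e]
    constructor
    · intro h1 h2
      exact h1 (congrArg φ (Subtype.ext h2))
    · intro h1 h2
      exact h1 (congrArg Subtype.val (φ.injective h2))
  have hpi : ∀ i v, p v = i ↔ q v = (φ.symm i).1 := by
    intro i v
    constructor
    · intro h1
      rw [← h1]
      simp [hp]
    · intro h1
      have h2 : (⟨q v, hqB v⟩ : B) = φ.symm i := Subtype.ext h1
      simp only [hp, h2, Equiv.apply_symm_apply]
  have hcrs : ∀ i, crs s t (part p i) = ct (P ∘ s) (P ∘ t) (φ.symm i).1 := by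
    intro i
    ext e
    rw [mem_crs, mem_part, mem_part, hpi, hpi, mem_ct]
    simp only [Function.comp]
    by_cases h1 : P (s e) = P (t e)
    · have h2 := hqe' e h1
      rw [h2, h1]
      exact ⟨fun h9 => absurd Iff.rfl h9, fun h9 => absurd Iff.rfl h9⟩
    · rw [(hqe e h1).1, (hqe e h1).2]
  have hcr : (univ.filter (fun e => p (s e) ≠ p (t e))) =
      (univ.filter (fun e => P (s e) ≠ P (t e))) := by
    ext e
    rw [mem_filter, mem_filter, hpiff]
  have hmain := h k p (fun i => by
      have h1 := (φ.symm i).2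
      rw [hmB] at h1
      obtain ⟨e, he⟩ := nonempty_iff_ne_empty.2 h1
      rw [mem_ct] at he
      have hne : P (s e) ≠ P (t e) := by
        intro h2
        apply he
        simp only [Function.comp, h2]
      simp only [Function.comp] at he
      by_cases h5 : P (s e) = (φ.symm i).1
      · exact ⟨s e, (hpi _ _).2 (by rw [(hqe e hne).1]; exact h5)⟩
      · refine ⟨t e, (hpi _ _).2 ?_⟩
        rw [(hqe e hne).2]
        by_contra h6
        exact he ⟨fun h7 => absurd h7 h5, fun h7 => absurd h7 h6⟩)
    (fun e he => by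
      by_contra h1
      exact (hpiff e).1 h1 (hF e he))
    (by
      refine h18.trans ?_
      refine card_le_card_of_injOn (fun x => if hx : x ∈ B then φ ⟨x, hx⟩ else φ ⟨y0, hy0⟩) ?_ ?_
      · intro x hx
        have hx3 := (mem_filter.1 (mem_coe.1 hx)).2
        have hxB : x ∈ B := hodd x (mem_coe.1 hx)
        simp only [dif_pos hxB]
        rw [mem_coe, mem_filter]
        refine ⟨mem_univ _, ?_⟩
        rw [hcrs, Equiv.symm_apply_apply]
        exact hx3
      · intro x hx x' hx' hxx
        have hxB : x ∈ B := hodd x (mem_coe.1 hx)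
        have hxB' : x' ∈ B := hodd x' (mem_coe.1 hx')
        simp only [dif_pos hxB, dif_pos hxB'] at hxx
        exact congrArg Subtype.val (φ.injective hxx))
  rw [hcr] at hmain
  exact hmain

/-- in the form of the results -/
theorem GCl.of_part {s t : E → V} {m : ℕ} {C : Fin m → Finset E}
    (h : ∀ i, (((C i \ (univ.filter (fun j => j < i)).biUnion C).card ≤ 4 ∧
        ∀ Y : Finset V, Disjoint (crs s t Y) ((univ.filter (fun j => j < i)).biUnion C) →
          (crs s t Y ∩ C i).card ≠ 1) ∨
      ∃ T₁ T₂ : Finset E, T₁ ⊆ C i ∧ T₂ ⊆ C i ∧ Disjoint T₁ T₂ ∧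
        ∀ Y : Finset V, Disjoint (crs s t Y) ((univ.filter (fun j => j < i)).biUnion C) →
          ¬ Disjoint (crs s t Y) (C i) →
            ¬ Disjoint (crs s t Y) T₁ ∧ ¬ Disjoint (crs s t Y) T₂))
    (hO : Part s t (univ.biUnion C)) : GCl PartN s t :=
  GCl.of_steps h hO.toN

end Pool.Agent.N410.DC
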