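import Pool.Agent.R890.FF.Min
import Pool.Agent.R926.SC.Mixed
import Pool.Agent.R483.TP.Arb

/-!
# Minimal quotients without nowhere-zero flow over the group of order four are sparse

In a minimal quotient `H` (no flow, no Petersen quotient, every proper quotient has a flow) a set of
`k ≥ 2` vertices spans at most `2 k - 3` edges (apart from loops).  A minimal set which spans more
edges has an orientation in which two edges leave each vertex apart from a root (Hall's theorem), and
this gives two disjoint branchings (Edmonds' theorem); a flow of the graph in which the set is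
contracted can be lifted.
-/

set_option autoImplicit false
set_option linter.unusedSectionVars false
set_option synthInstance.maxHeartbeats 400000
set_option synthInstance.maxSize 2048

namespace Pool.Agent.N410.DC

open Finset Pool.Agent.TH362.TF Pool.Agent.R890.FF Pool.Agent.TH676.Z Pool.Agent.R926.SC

variable {V E : Type} [Fintype V] [DecidableEq V] [Fintype E] [DecidableEq E]

/-- the edges with two different ends in `X` -/
def eIn (s t : E → V) (X : Finset V) : Finset E :=
  univ.filter (fun e => s e ∈ X ∧ t e ∈ X ∧ s e ≠ t e)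

theorem mem_eIn {s t : E → V} {X : Finset V} {e : E} :
    e ∈ eIn s t X ↔ s e ∈ X ∧ t e ∈ X ∧ s e ≠ t e := by simp [eIn]

theorem eIn_mono (s t : E → V) {X Y : Finset V} (h : X ⊆ Y) : eIn s t X ⊆ eIn s t Y := by
  intro e he
  rw [mem_eIn] at he ⊢
  exact ⟨h he.1, h he.2.1, he.2.2⟩

theorem eIn_one (s t : E → V) {X : Finset V} (h : X.card ≤ 1) : eIn s t X = ∅ := by
  rw [Finset.eq_empty_iff_forall_notMem]
  intro e he
  rw [mem_eIn] at he
  exact he.2.2 (card_le_one.1 h _ he.1 _ he.2.1)

/-- two disjoint connectors from a set of arcs in which two leave each vertex -/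
theorem connectors (s t : E → V) (X : Finset V) (r : V) (hr : r ∈ X)
    (hX : 2 * X.card ≤ (eIn s t X).card + 2)
    (hmin : ∀ Y : Finset V, Y ⊂ X → 2 ≤ Y.card → (eIn s t Y).card + 3 ≤ 2 * Y.card) :
    ∃ T₁ T₂ : Finset E, T₁ ⊆ eIn s t X ∧ T₂ ⊆ eIn s t X ∧ Disjoint T₁ T₂ ∧
      ∀ Y : Finset V, ¬ Disjoint (crs s t Y) (eIn s t X) →
        ¬ Disjoint (crs s t Y) T₁ ∧ ¬ Disjoint (crs s t Y) T₂ := by
  classical
  let ι := {v : V // v ∈ X ∧ v ≠ r} × Fin 2
  have hsmall : ∀ Y : Finset V, Y ⊂ X → Y.Nonempty → (eIn s t Y).card + 2 ≤ 2 * Y.card := by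
    intro Y hY hne
    rcases Nat.lt_or_ge Y.card 2 with h | h
    · have h1 : Y.card = 1 := by
        have := hne.card_pos
        omega
      rw [eIn_one s t h1.le, card_empty, h1]
    · have := hmin Y hY h
      omega
  -- Hall's theorem
  have hall : ∀ W : Finset ι, W.card ≤
      (W.biUnion (fun x => (eIn s t X).filter (fun e => s e = x.1.1 ∨ t e = x.1.1))).card := by
    intro W
    rcases W.eq_empty_or_nonempty with rfl | hW
    · simp
    set Y : Finset V := W.image (fun x => x.1.1) with hY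
    have hYX : Y ⊆ X := by
      intro v hv
      obtain ⟨x, _, rfl⟩ := mem_image.1 hv
      exact x.1.2.1
    have hrY : r ∉ Y := by
      intro hv
      obtain ⟨x, _, hx⟩ := mem_image.1 hv
      exact x.1.2.2 hx
    have hYne : Y.Nonempty := hW.image _
    have hcard : W.card ≤ 2 * Y.card := by
      have h1 : W.card ≤ ((Y ×ˢ (univ : Finset (Fin 2)))).card := by
        refine card_le_card_of_injOn (fun x => (x.1.1, x.2)) ?_ ?_
        · intro x hx
          rw [mem_coe, mem_product]
          exact ⟨mem_image.2 ⟨x, hx, rfl⟩, mem_univ _⟩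
        · intro x _ y _ hxy
          simp only [Prod.mk.injEq] at hxy
          exact Prod.ext (Subtype.ext hxy.1) hxy.2
      rw [card_product, card_univ, Fintype.card_fin] at h1
      omega
    have hsub : eIn s t X \ eIn s t (X \ Y) ⊆
        W.biUnion (fun x => (eIn s t X).filter (fun e => s e = x.1.1 ∨ t e = x.1.1)) := by
      intro e he
      rw [mem_sdiff] at he
      obtain ⟨h1, h2⟩ := he
      have h3 := mem_eIn.1 h1
      rw [mem_biUnion]
      by_cases hs : s e ∈ Y
      · obtain ⟨x, hx, hxe⟩ := mem_image.1 hs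
        exact ⟨x, hx, mem_filter.2 ⟨h1, Or.inl hxe.symm⟩⟩
      · by_cases ht : t e ∈ Y
        · obtain ⟨x, hx, hxe⟩ := mem_image.1 ht
          exact ⟨x, hx, mem_filter.2 ⟨h1, Or.inr hxe.symm⟩⟩
        · exact absurd (mem_eIn.2 ⟨mem_sdiff.2 ⟨h3.1, hs⟩, mem_sdiff.2 ⟨h3.2.1, ht⟩, h3.2.2⟩) h2
    have hprop : X \ Y ⊂ X := by
      refine ⟨sdiff_subset, fun h => ?_⟩
      obtain ⟨y, hy⟩ := hYne
      exact (mem_sdiff.1 (h (hYX hy))).2 hy
    have h4 := hsmall (X \ Y) hprop ⟨r, mem_sdiff.2 ⟨hr, hrY⟩⟩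
    have h5 : (X \ Y).card + Y.card = X.card := card_sdiff_add_card_eq_card hYX
    have h6 : (eIn s t X \ eIn s t (X \ Y)).card + (eIn s t (X \ Y)).card = (eIn s t X).card :=
      card_sdiff_add_card_eq_card (eIn_mono s t sdiff_subset)
    have h7 := card_le_card hsub
    omega
  obtain ⟨g, hginj, hg⟩ := (Finset.all_card_le_biUnion_card_iff_exists_injective _).1 hall
  have hgX : ∀ x, g x ∈ eIn s t X := fun x => (mem_filter.1 (hg x)).1
  have hgi : ∀ x, s (g x) = x.1.1 ∨ t (g x) = x.1.1 := fun x => (mem_filter.1 (hg x)).2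
  -- the arcs
  let tl : ι → {v : V // v ∈ X} := fun x => ⟨x.1.1, x.1.2.1⟩
  let hd : ι → {v : V // v ∈ X} := fun x =>
    if s (g x) = x.1.1 then ⟨t (g x), (mem_eIn.1 (hgX x)).2.1⟩ else ⟨s (g x), (mem_eIn.1 (hgX x)).1⟩
  have hends : ∀ x, (s (g x) = (tl x).1 ∧ t (g x) = (hd x).1) ∨
      (t (g x) = (tl x).1 ∧ s (g x) = (hd x).1) := by
    intro x
    by_cases h : s (g x) = x.1.1
    · left
      refine ⟨h, ?_⟩
      simp only [hd, if_pos h]
    · right
      refine ⟨(hgi x).resolve_left h, ?_⟩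
      simp only [hd, if_neg h]
  have hcut : ∀ Z : Finset {v : V // v ∈ X}, Z.Nonempty → (⟨r, hr⟩ : {v : V // v ∈ X}) ∉ Z →
      2 ≤ Pool.Agent.R483.TP.out tl hd univ Z := by
    intro Z hZ hrZ
    set Y : Finset V := Z.image Subtype.val with hY
    have hYc : Y.card = Z.card := card_image_of_injective _ Subtype.val_injective
    have hYX : Y ⊂ X := by
      refine ⟨?_, fun h => ?_⟩
      · intro v hv
        obtain ⟨x, _, rfl⟩ := mem_image.1 hv
        exact x.2
      · obtain ⟨x, hx, hxr⟩ := mem_image.1 (h hr)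
        have : x = ⟨r, hr⟩ := Subtype.ext hxr
        exact hrZ (this ▸ hx)
    have h1 := hsmall Y hYX (hZ.image _)
    -- arcs with tail in Z
    have h2 : 2 * Z.card ≤ (univ.filter (fun a : ι => tl a ∈ Z)).card := by
      have h3 : (Z.attach ×ˢ (univ : Finset (Fin 2))).card ≤
          (univ.filter (fun a : ι => tl a ∈ Z)).card := by
        refine card_le_card_of_injOn
          (fun p => (⟨p.1.1.1, p.1.1.2, fun h => hrZ (by
            have : p.1.1 = ⟨r, hr⟩ := Subtype.ext h
            rw [← this]; exact p.1.2)⟩, p.2)) ?_ ?_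
        · intro p _
          rw [mem_coe, mem_filter]
          exact ⟨mem_univ _, p.1.2⟩
        · intro p _ q _ hpq
          have k1 := congrArg Subtype.val (congrArg Prod.fst hpq)
          have k2 := congrArg Prod.snd hpq
          exact Prod.ext (Subtype.ext (Subtype.ext k1)) k2
      rw [card_product, card_univ, Fintype.card_fin, card_attach] at h3
      omega
    have h4 : (univ.filter (fun a : ι => tl a ∈ Z)).card =
        Pool.Agent.R483.TP.out tl hd univ Z +
          (univ.filter (fun a : ι => tl a ∈ Z ∧ hd a ∈ Z)).card := by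
      unfold Pool.Agent.R483.TP.out
      rw [← card_union_of_disjoint]
      · congr 1
        ext a
        simp only [mem_filter, mem_univ, true_and, mem_union]
        tauto
      · rw [disjoint_left]
        intro a ha hb
        simp only [mem_filter, mem_univ, true_and] at ha hb
        exact ha.2 hb.2
    have h5 : (univ.filter (fun a : ι => tl a ∈ Z ∧ hd a ∈ Z)).card ≤ (eIn s t Y).card := by
      refine card_le_card_of_injOn g ?_ (hginj.injOn)
      intro a ha
      rw [mem_coe, mem_filter] at ha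
      have h6 : (tl a).1 ∈ Y := mem_image.2 ⟨_, ha.2.1, rfl⟩
      have h7 : (hd a).1 ∈ Y := mem_image.2 ⟨_, ha.2.2, rfl⟩
      have h8 := (mem_eIn.1 (hgX a)).2.2
      rw [mem_coe, mem_eIn]
      rcases hends a with ⟨h9, h10⟩ | ⟨h9, h10⟩
      · exact ⟨h9 ▸ h6, h10 ▸ h7, h8⟩
      · exact ⟨h10 ▸ h7, h9 ▸ h6, h8⟩
    omega
  obtain ⟨F, -, hF2, hF3⟩ := Pool.Agent.R483.TP.edmonds tl hd (⟨r, hr⟩ : {v : V // v ∈ X}) 2 univ hcut
  have hreach : ∀ (i : Fin 2) (Y : Finset V) (v : {v : V // v ∈ X}),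
      Pool.Agent.R483.TP.Reach tl hd ⟨r, hr⟩ (F i) v → ¬ (v.1 ∈ Y ↔ r ∈ Y) →
      ¬ Disjoint (crs s t Y) ((F i).image g) := by
    intro i Y v hv
    induction hv using Relation.ReflTransGen.head_induction_on with
    | refl => intro h; exact absurd Iff.rfl h
    | head h1 h2 ih =>
      rename_i a c
      intro h
      obtain ⟨x, hx, hxa, hxc⟩ := h1
      by_cases hc : (c.1 ∈ Y ↔ r ∈ Y)
      · rw [not_disjoint_iff]
        refine ⟨g x, ?_, mem_image.2 ⟨x, hx, rfl⟩⟩
        rw [mem_crs]
        rcases hends x with ⟨h9, h10⟩ | ⟨h9, h10⟩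
        · rw [h9, h10, hxa, hxc]
          intro h11
          exact h (h11.trans hc)
        · rw [h9, h10, hxa, hxc]
          intro h11
          exact h (h11.symm.trans hc)
      · exact ih hc
  refine ⟨(F 0).image g, (F 1).image g, ?_, ?_, ?_, ?_⟩
  · intro e he
    obtain ⟨x, _, rfl⟩ := mem_image.1 he
    exact hgX x
  · intro e he
    obtain ⟨x, _, rfl⟩ := mem_image.1 he
    exact hgX x
  · rw [disjoint_left]
    intro e he he'
    obtain ⟨x, hx, rfl⟩ := mem_image.1 he
    obtain ⟨y, hy, hxy⟩ := mem_image.1 he'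
    rw [hginj hxy] at hy
    exact (disjoint_left.1 (hF2 0 1 (by decide))) hx hy
  · intro Y hY
    rw [not_disjoint_iff] at hY
    obtain ⟨e, he1, he2⟩ := hY
    rw [mem_crs] at he1
    have he3 := mem_eIn.1 he2
    have key : ∀ i, ¬ Disjoint (crs s t Y) ((F i).image g) := by
      intro i
      by_cases h1 : (s e ∈ Y ↔ r ∈ Y)
      · exact hreach i Y ⟨t e, he3.2.1⟩ (hF3 i _) (fun h2 => he1 (h1.trans h2.symm))
      · exact hreach i Y ⟨s e, he3.1⟩ (hF3 i _) h1
    exact ⟨key 0, key 1⟩

/-- a set with two disjoint connectors does not occur in a minimal quotient -/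
theorem no_dense {s t : E → V} (h : Mq s t univ) (X : Finset V) (hne : (eIn s t X).Nonempty)
    (hT : ∃ T₁ T₂ : Finset E, T₁ ⊆ eIn s t X ∧ T₂ ⊆ eIn s t X ∧ Disjoint T₁ T₂ ∧
      ∀ Y : Finset V, ¬ Disjoint (crs s t Y) (eIn s t X) →
        ¬ Disjoint (crs s t Y) T₁ ∧ ¬ Disjoint (crs s t Y) T₂) : False := by
  obtain ⟨T₁, T₂, a1, a2, a3, a4⟩ := hT
  obtain ⟨r, h1, -, -, h4⟩ := quotC s t (eIn s t X)
  obtain ⟨e, he⟩ := hne
  have h5 : NZ (r ∘ s) (r ∘ t) univ :=
    h.mn r ⟨e, mem_univ _, (mem_eIn.1 he).2.2, h1 e he⟩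
  have h6 : FlA s t (∅ ∪ eIn s t X) := by
    rw [empty_union]
    exact flA_of_nz s t _ r h4 h5
  obtain ⟨x, y, b1, b2, b3⟩ := flA_two s t ∅ (eIn s t X)
    ⟨T₁, T₂, a1, a2, a3, fun Y _ hY => a4 Y hY⟩ h6
  refine h.nz ⟨fun e => (x e, y e), fun e _ => ?_, fun v => cons_of s t x y v (b1 v) (b2 v)⟩
  intro h7
  rcases b3 e (notMem_empty e) with h8 | h8
  · exact h8 (congrArg Prod.fst h7)
  · exact h8 (congrArg Prod.snd h7)

/-- **minimal quotients are sparse** -/
theorem sparse {s t : E → V} (h : Mq s t univ) : ∀ X : Finset V, 2 ≤ X.card →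
    (eIn s t X).card + 3 ≤ 2 * X.card := by
  intro X
  induction X using Finset.strongInduction with
  | _ X ih =>
    intro hX
    by_contra hc
    obtain ⟨r, hr⟩ := card_pos.1 (show 0 < X.card by omega)
    refine no_dense h X (card_pos.1 (by omega)) ?_
    exact connectors s t X r hr (by omega) ih

end Pool.Agent.N410.DC
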